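import Pool.Agent.H109R2.SC.Line

set_option autoImplicit false

namespace Pool.Agent.H109R2.SC

section

variable (k : ℕ)

/-- Search radius for markers. -/
noncomputable def B : ℤ := 2 * Rad k + 2

/-- Locality radius. -/
noncomputable def Lam : ℤ := B k + 2 * Rad k + 7 * k + 3

/-- `T / 2` is near a marker of sign `s`. -/
def U1 (w : ℤ → Lt) (T : ℤ) (s : Bool) : Prop :=
  ∃ z, M k w z ∧ T - 2 * k ≤ 2 * z ∧ 2 * z ≤ T + 2 * k ∧ sgn iota (win k w z) = s

/-- `T / 2` is strictly inside a bounded gap between markers, of sign `s`. -/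
def U2 (w : ℤ → Lt) (T : ℤ) (s : Bool) : Prop :=
  ∃ a b, M k w a ∧ M k w b ∧ T - 2 * B k ≤ 2 * a ∧ 2 * a + 2 * k < T ∧ T + 2 * k < 2 * b ∧
    2 * b ≤ T + 2 * B k ∧ (∀ z, a < z → z < b → ¬ M k w z) ∧
    sgn iota (seg (b - a + 1).toNat w a) = s

/-- `T / 2` is in the same gap as a periodic position far from all markers, of sign `s`. -/
def U3 (w : ℤ → Lt) (T : ℤ) (s : Bool) : Prop :=
  ∃ y, T - 2 * B k ≤ 2 * y ∧ 2 * y ≤ T + 2 * B k ∧
    (∀ z, y - Rad k ≤ z → z ≤ y + Rad k → ¬ M k w z) ∧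
    (∀ z, min (2 * y) T - 2 * k ≤ 2 * z → 2 * z ≤ max (2 * y) T + 2 * k → ¬ M k w z) ∧
    sgn (fun A : Set (Fin (6 * k + 3) → Lt) => iota '' A) (Aset k w y) = s

/-! ### coverage -/

theorem exists_greatest (P : ℤ → Prop) (lo hi : ℤ) (h : ∃ z, P z ∧ lo ≤ z ∧ z ≤ hi) :
    ∃ z, P z ∧ lo ≤ z ∧ z ≤ hi ∧ ∀ z', P z' → z' ≤ hi → z' ≤ z := by
  obtain ⟨z0, hz0, hlo, hhi⟩ := h
  obtain ⟨ub, ⟨h1, h2⟩, h3⟩ := Int.exists_greatest_of_bdd (P := fun z => P z ∧ z ≤ hi)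
    ⟨hi, fun z hz => hz.2⟩ ⟨z0, hz0, hhi⟩
  exact ⟨ub, h1, by have := h3 z0 ⟨hz0, hhi⟩; omega, h2, fun z' hz' hle => h3 z' ⟨hz', hle⟩⟩

theorem exists_least (P : ℤ → Prop) (lo hi : ℤ) (h : ∃ z, P z ∧ lo ≤ z ∧ z ≤ hi) :
    ∃ z, P z ∧ lo ≤ z ∧ z ≤ hi ∧ ∀ z', P z' → lo ≤ z' → z ≤ z' := by
  obtain ⟨z0, hz0, hlo, hhi⟩ := h
  obtain ⟨lb, ⟨h1, h2⟩, h3⟩ := Int.exists_least_of_bdd (P := fun z => P z ∧ lo ≤ z)
    ⟨lo, fun z hz => hz.2⟩ ⟨z0, hz0, hlo⟩
  exact ⟨lb, h1, h2, by have := h3 z0 ⟨hz0, hlo⟩; omega, fun z' hz' hle => h3 z' ⟨hz', hle⟩⟩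

theorem cover (w : ℤ → Lt) (T : ℤ) :
    (∃ s, U1 k w T s) ∨ (∃ s, U2 k w T s) ∨ (∃ s, U3 k w T s) := by
  have hR := Rad_ge k
  have hB : B k = 2 * Rad k + 2 := rfl
  by_cases h1 : ∃ z, M k w z ∧ T - 2 * k ≤ 2 * z ∧ 2 * z ≤ T + 2 * k
  · obtain ⟨z, hz1, hz2, hz3⟩ := h1
    exact Or.inl ⟨_, z, hz1, hz2, hz3, rfl⟩
  push Not at h1
  right
  by_cases hl : ∃ z, M k w z ∧ -((2 * B k - T) / 2) ≤ z ∧ z ≤ T / 2
  · by_cases hr : ∃ z, M k w z ∧ (T + 1) / 2 ≤ z ∧ z ≤ (T + 2 * B k) / 2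
    · left
      obtain ⟨a, ha1, ha2, ha3, ha4⟩ := exists_greatest _ _ _ hl
      obtain ⟨b, hb1, hb2, hb3, hb4⟩ := exists_least _ _ _ hr
      have n1 := h1 a ha1
      have n2 := h1 b hb1
      refine ⟨_, a, b, ha1, hb1, by omega, by omega, by omega, by omega, ?_, rfl⟩
      intro z hz1 hz2 hMz
      rcases le_or_gt z (T / 2) with h | h
      · have := ha4 z hMz h
        omega
      · have := hb4 z hMz (by omega)
        omega
    · right
      push Not at hr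
      refine ⟨_, (T + 1) / 2 + Rad k + 1, by omega, by omega, ?_, ?_, rfl⟩
      · intro z hz1 hz2 hMz
        have := hr z hMz (by omega)
        omega
      · intro z hz1 hz2 hMz
        have n1 := h1 z hMz
        have := hr z hMz (by omega)
        omega
  · right
    push Not at hl
    refine ⟨_, T / 2 - Rad k - 1, by omega, by omega, ?_, ?_, rfl⟩
    · intro z hz1 hz2 hMz
      have := hl z hMz (by omega)
      omega
    · intro z hz1 hz2 hMz
      have n1 := h1 z hMz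
      have := hl z hMz (by omega)
      omega

/-! ### no conflict -/

theorem U1_conflict {w : ℤ → Lt} (T T' : ℤ) (h1 : T - T' ≤ 2 * k) (h2 : T' - T ≤ 2 * k)
    (s s' : Bool) (h : U1 k w T s) (h' : U1 k w T' s') : s = s' := by
  obtain ⟨z, hz1, hz2, hz3, rfl⟩ := h
  obtain ⟨z', hz1', hz2', hz3', rfl⟩ := h'
  have : z = z' := by
    rcases lt_trichotomy z z' with hlt | heq | hlt
    · have := M_sep k z z' hz1 hz1' hlt
      omega
    · exact heq
    · have := M_sep k z' z hz1' hz1 hlt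
      omega
  rw [this]

theorem U2_conflict {w : ℤ → Lt} (T T' : ℤ) (h1 : T - T' ≤ 2 * k) (h2 : T' - T ≤ 2 * k)
    (s s' : Bool) (h : U2 k w T s) (h' : U2 k w T' s') : s = s' := by
  obtain ⟨a, b, ha, hb, c1, c2, c3, c4, c5, rfl⟩ := h
  obtain ⟨a', b', ha', hb', c1', c2', c3', c4', c5', rfl⟩ := h'
  have ea : a = a' := by
    rcases lt_trichotomy a a' with hlt | heq | hlt
    · exact absurd ha' (c5 a' hlt (by omega))
    · exact heq
    · exact absurd ha (c5' a hlt (by omega))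
  have eb : b = b' := by
    rcases lt_trichotomy b b' with hlt | heq | hlt
    · exact absurd hb (c5' b (by omega) hlt)
    · exact heq
    · exact absurd hb' (c5 b' (by omega) hlt)
  subst ea
  subst eb
  rfl

theorem U3_conflict_aux {w : ℤ → Lt} (hw : Red w) (T T' : ℤ) (h1 : T - T' ≤ 2 * k)
    (h2 : T' - T ≤ 2 * k) (y y' : ℤ) (hle : y ≤ y')
    (c3 : ∀ z, y - Rad k ≤ z → z ≤ y + Rad k → ¬ M k w z)
    (c4 : ∀ z, min (2 * y) T - 2 * k ≤ 2 * z → 2 * z ≤ max (2 * y) T + 2 * k → ¬ M k w z)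
    (c3' : ∀ z, y' - Rad k ≤ z → z ≤ y' + Rad k → ¬ M k w z)
    (c4' : ∀ z, min (2 * y') T' - 2 * k ≤ 2 * z → 2 * z ≤ max (2 * y') T' + 2 * k → ¬ M k w z) :
    Aset k w y = Aset k w y' := by
  have hall : ∀ z, y - Rad k ≤ z → z ≤ y' + Rad k → ¬ M k w z := by
    intro z hz1 hz2
    by_cases d1 : z ≤ y + Rad k
    · exact c3 z hz1 d1
    by_cases d2 : y' - Rad k ≤ z
    · exact c3' z d2 hz2
    by_cases d3 : min (2 * y) T - 2 * k ≤ 2 * z ∧ 2 * z ≤ max (2 * y) T + 2 * k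
    · exact c4 z d3.1 d3.2
    apply c4' z
    · omega
    · omega
  obtain ⟨n, hn⟩ : ∃ n : ℕ, y' = y + n := ⟨(y' - y).toNat, by omega⟩
  rw [hn]
  apply Aset_chain k y n
  intro x hx1 hx2
  apply per_of_far k hw x
  intro z hz1 hz2
  exact hall z (by omega) (by omega)

theorem U3_conflict {w : ℤ → Lt} (hw : Red w) (T T' : ℤ) (h1 : T - T' ≤ 2 * k)
    (h2 : T' - T ≤ 2 * k)
    (s s' : Bool) (h : U3 k w T s) (h' : U3 k w T' s') : s = s' := by
  obtain ⟨y, c1, c2, c3, c4, rfl⟩ := h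
  obtain ⟨y', c1', c2', c3', c4', rfl⟩ := h'
  rcases le_total y y' with hle | hle
  · rw [U3_conflict_aux k hw T T' h1 h2 y y' hle c3 c4 c3' c4']
  · rw [U3_conflict_aux k hw T' T h2 h1 y' y hle c3' c4' c3 c4]

/-! ### reflection -/

theorem U1_rev {w : ℤ → Lt} (hw : Red w) (τ T : ℤ) (s : Bool) (h : U1 k w T s) :
    U1 k (rev τ w) (2 * τ - T) (!s) := by
  obtain ⟨z, hz1, hz2, hz3, rfl⟩ := h
  refine ⟨τ - z, (M_rev k τ w z).mpr hz1, by omega, by omega, ?_⟩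
  rw [win_rev]
  apply sgn_flip iota _ (iota_iota _)
  exact seg_ne_iota hw _ _ _ (by push_cast; omega) (by push_cast; omega)

theorem sgn_seg_congr (w : ℤ → Lt) (a : ℤ) {n n' : ℕ} (h : n = n') :
    sgn iota (seg n w a) = sgn iota (seg n' w a) := by
  subst h
  rfl

theorem U2_rev {w : ℤ → Lt} (hw : Red w) (τ T : ℤ) (s : Bool) (h : U2 k w T s) :
    U2 k (rev τ w) (2 * τ - T) (!s) := by
  obtain ⟨a, b, ha, hb, c1, c2, c3, c4, c5, rfl⟩ := h
  refine ⟨τ - b, τ - a, (M_rev k τ w b).mpr hb, (M_rev k τ w a).mpr ha, by omega, by omega,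
    by omega, by omega, ?_, ?_⟩
  · intro z hz1 hz2 hM
    have e : z = τ - (τ - z) := by ring
    rw [e, M_rev] at hM
    exact c5 (τ - z) (by omega) (by omega) hM
  · have en : (τ - a - (τ - b) + 1).toNat = (b - a + 1).toNat := by
      congr 1
      ring
    rw [sgn_seg_congr _ _ en, seg_rev]
    have ea : τ - (τ - b) - (((b - a + 1).toNat : ℕ) : ℤ) + 1 = a := by omega
    rw [ea]
    apply sgn_flip iota _ (iota_iota _)
    exact seg_ne_iota hw _ _ _ (by omega) (by omega)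

theorem U3_rev {w : ℤ → Lt} (hw : Red w) (τ T : ℤ) (s : Bool) (h : U3 k w T s) :
    U3 k (rev τ w) (2 * τ - T) (!s) := by
  obtain ⟨y, c1, c2, c3, c4, rfl⟩ := h
  refine ⟨τ - y, by omega, by omega, ?_, ?_, ?_⟩
  · intro z hz1 hz2 hM
    have e : z = τ - (τ - z) := by ring
    rw [e, M_rev] at hM
    exact c3 (τ - z) (by omega) (by omega) hM
  · intro z hz1 hz2 hM
    have e : z = τ - (τ - z) := by ring
    rw [e, M_rev] at hM
    exact c4 (τ - z) (by omega) (by omega) hM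
  · rw [Aset_rev]
    apply sgn_flip (fun A : Set (Fin (6 * k + 3) → Lt) => iota '' A)
    · exact iota_image_image _
    · exact Aset_ne k hw y

/-! ### locality -/

theorem seg_local {w w' : ℤ → Lt} (n : ℕ) (a : ℤ)
    (h : ∀ x, a ≤ x → x < a + n → w x = w' x) : seg n w a = seg n w' a := by
  funext i
  have hi := i.2
  exact h _ (by omega) (by omega)

theorem win_local {w w' : ℤ → Lt} (z : ℤ)
    (h : ∀ x, z - (6 * k + 2) ≤ x → x ≤ z + (6 * k + 2) → w x = w' x) :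
    win k w z = win k w' z := by
  apply seg_local
  intro x h1 h2
  exact h x (by omega) (by push_cast at h2; omega)

theorem v_local {w w' : ℤ → Lt} (z : ℤ)
    (h : ∀ x, z - (6 * k + 2) ≤ x → x ≤ z + (6 * k + 2) → w x = w' x) :
    v k w z = v k w' z := by
  unfold v
  rw [win_local k z h]

theorem per_local {w w' : ℤ → Lt} (z : ℤ)
    (h : ∀ x, z - (6 * k + 2) ≤ x → x ≤ z + (6 * k + 2) → w x = w' x)
    (hp : per k w z) : per k w' z := by
  obtain ⟨q, h1, h2, h3⟩ := hp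
  refine ⟨q, h1, h2, fun i hi1 hi2 => ?_⟩
  rw [← h i (by omega) (by omega), ← h (i + q) (by omega) (by omega)]
  exact h3 i hi1 hi2

theorem M_local {w w' : ℤ → Lt} (z : ℤ)
    (h : ∀ x, z - Rad k - (6 * k + 2) ≤ x → x ≤ z + Rad k + (6 * k + 2) → w x = w' x)
    (hM : M k w z) : M k w' z := by
  have hR := Rad_ge k
  obtain ⟨h1, h2⟩ := hM
  refine ⟨fun hp => h1 (per_local k z (fun x hx1 hx2 => (h x (by omega) (by omega)).symm) hp), ?_⟩
  intro z' hne hz1 hz2 hp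
  have hp' : ¬ per k w z' := fun hq =>
    hp (per_local k z' (fun x hx1 hx2 => h x (by omega) (by omega)) hq)
  have h3 := h2 z' hne hz1 hz2 hp'
  have e1 : v k w z = v k w' z := v_local k z (fun x hx1 hx2 => h x (by omega) (by omega))
  have e2 : v k w z' = v k w' z' := v_local k z' (fun x hx1 hx2 => h x (by omega) (by omega))
  rw [← e1, ← e2]
  exact h3

theorem U1_local {w w' : ℤ → Lt} (T : ℤ)
    (h : ∀ x, T - 2 * Lam k ≤ 2 * x → 2 * x ≤ T + 2 * Lam k → w x = w' x) (s : Bool)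
    (hU : U1 k w T s) : U1 k w' T s := by
  have hR := Rad_ge k
  have hB : B k = 2 * Rad k + 2 := rfl
  have hL : Lam k = B k + 2 * Rad k + 7 * k + 3 := rfl
  obtain ⟨z, hz1, hz2, hz3, rfl⟩ := hU
  refine ⟨z, M_local k z (fun x h1 h2 => h x (by omega) (by omega)) hz1, hz2, hz3, ?_⟩
  rw [win_local k z (fun x h1 h2 => h x (by omega) (by omega))]

theorem U2_local {w w' : ℤ → Lt} (T : ℤ)
    (h : ∀ x, T - 2 * Lam k ≤ 2 * x → 2 * x ≤ T + 2 * Lam k → w x = w' x) (s : Bool)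
    (hU : U2 k w T s) : U2 k w' T s := by
  have hR := Rad_ge k
  have hB : B k = 2 * Rad k + 2 := rfl
  have hL : Lam k = B k + 2 * Rad k + 7 * k + 3 := rfl
  obtain ⟨a, b, ha, hb, c1, c2, c3, c4, c5, rfl⟩ := hU
  refine ⟨a, b, M_local k a (fun x h1 h2 => h x (by omega) (by omega)) ha,
    M_local k b (fun x h1 h2 => h x (by omega) (by omega)) hb, c1, c2, c3, c4, ?_, ?_⟩
  · intro z hz1 hz2 hM
    exact c5 z hz1 hz2 (M_local k z (fun x h1 h2 => (h x (by omega) (by omega)).symm) hM)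
  · rw [seg_local _ a (fun x h1 h2 => h x (by omega) (by omega))]

theorem U3_local {w w' : ℤ → Lt} (T : ℤ)
    (h : ∀ x, T - 2 * Lam k ≤ 2 * x → 2 * x ≤ T + 2 * Lam k → w x = w' x) (s : Bool)
    (hU : U3 k w T s) : U3 k w' T s := by
  have hR := Rad_ge k
  have hB : B k = 2 * Rad k + 2 := rfl
  have hL : Lam k = B k + 2 * Rad k + 7 * k + 3 := rfl
  obtain ⟨y, c1, c2, c3, c4, rfl⟩ := hU
  refine ⟨y, c1, c2, ?_, ?_, ?_⟩
  · intro z hz1 hz2 hM
    exact c3 z hz1 hz2 (M_local k z (fun x h1 h2 => (h x (by omega) (by omega)).symm) hM)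
  · intro z hz1 hz2 hM
    exact c4 z hz1 hz2 (M_local k z (fun x h1 h2 => (h x (by omega) (by omega)).symm) hM)
  · congr 1
    ext x
    constructor
    · rintro ⟨j, hj1, hj2, rfl⟩
      refine ⟨j, hj1, hj2, (seg_local _ _ fun x h1 h2 => ?_)⟩
      exact (h x (by omega) (by push_cast at h2; omega)).symm
    · rintro ⟨j, hj1, hj2, rfl⟩
      refine ⟨j, hj1, hj2, (seg_local _ _ fun x h1 h2 => ?_)⟩
      exact h x (by omega) (by push_cast at h2; omega)

/-- The six classes. -/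
def U : Fin 3 → (ℤ → Lt) → ℤ → Bool → Prop
  | 0 => U1 k
  | 1 => U2 k
  | 2 => U3 k

theorem U_cover (w : ℤ → Lt) (T : ℤ) : ∃ i s, U k i w T s := by
  rcases cover k w T with ⟨s, h⟩ | ⟨s, h⟩ | ⟨s, h⟩
  · exact ⟨0, s, h⟩
  · exact ⟨1, s, h⟩
  · exact ⟨2, s, h⟩

theorem U_conflict {w : ℤ → Lt} (hw : Red w) (T T' : ℤ) (h1 : T - T' ≤ 2 * k)
    (h2 : T' - T ≤ 2 * k) (i : Fin 3) (s s' : Bool) (h : U k i w T s) (h' : U k i w T' s') :
    s = s' := by
  fin_cases i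
  · exact U1_conflict k T T' h1 h2 s s' h h'
  · exact U2_conflict k T T' h1 h2 s s' h h'
  · exact U3_conflict k hw T T' h1 h2 s s' h h'

theorem U_rev {w : ℤ → Lt} (hw : Red w) (τ T : ℤ) (i : Fin 3) (s : Bool) (h : U k i w T s) :
    U k i (rev τ w) (2 * τ - T) (!s) := by
  fin_cases i
  · exact U1_rev k hw τ T s h
  · exact U2_rev k hw τ T s h
  · exact U3_rev k hw τ T s h

theorem U_local {w w' : ℤ → Lt} (T : ℤ)
    (h : ∀ x, T - 2 * Lam k ≤ 2 * x → 2 * x ≤ T + 2 * Lam k → w x = w' x) (i : Fin 3) (s : Bool)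
    (hU : U k i w T s) : U k i w' T s := by
  fin_cases i
  · exact U1_local k T h s hU
  · exact U2_local k T h s hU
  · exact U3_local k T h s hU

/-- Key property: if `w'` agrees near its centre with the reversed inverse of `w`, up to a shift
of the centre by at most `k`, both cannot be in the same class. -/
theorem U_key {w w' : ℤ → Lt} (hw : Red w) (τ T T' : ℤ)
    (h1 : T - (2 * τ - T') ≤ 2 * k) (h2 : (2 * τ - T') - T ≤ 2 * k)
    (hloc : ∀ x, T' - 2 * Lam k ≤ 2 * x → 2 * x ≤ T' + 2 * Lam k → w' x = inv (w (τ - x)))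
    (i : Fin 3) (s : Bool) (h : U k i w T s) (h' : U k i w' T' s) : False := by
  have h3 : U k i (rev τ w) T' s := U_local k T' (fun x hx1 hx2 => hloc x hx1 hx2) i s h'
  have h4 := U_rev k (hw.rev τ) τ T' i s h3
  rw [rev_rev] at h4
  have h5 := U_conflict k hw T (2 * τ - T') h1 h2 i s (!s) h h4
  cases s <;> simp at h5

end

end Pool.Agent.H109R2.SC
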