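import Pool.Agent.H109R2.SC.Color

set_option autoImplicit false

namespace Pool.Agent.H109R2.SC

open FreeGroup

/-- The reduced word of `p`, extended to a bi-infinite reduced word by repeating its end letters. -/
def W (p : FreeGroup (Fin 2)) (j : ℤ) : Lt :=
  p.toWord.getD (max 0 (min j ((p.toWord.length : ℤ) - 1))).toNat (0, true)

theorem W_eq (p : FreeGroup (Fin 2)) (j : ℤ) (h0 : 0 ≤ j) (h1 : j ≤ (p.norm : ℤ) - 1) :
    W p j = p.toWord.getD j.toNat (0, true) := by
  unfold W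
  have h2 : (p.norm : ℤ) = (p.toWord.length : ℤ) := rfl
  congr 2
  omega

theorem W_red (p : FreeGroup (Fin 2)) : Red (W p) := by
  intro i h
  unfold W at h
  set n := p.toWord.length with hn
  rcases Nat.eq_zero_or_pos n with h0 | hpos
  · have : p.toWord = [] := List.length_eq_zero_iff.mp (hn ▸ h0)
    rw [this] at h
    simp only [List.getD_nil] at h
    exact inv_ne _ h.symm
  · by_cases hcase : 0 ≤ i ∧ i + 1 ≤ (n : ℤ) - 1
    · obtain ⟨hi0, hi1⟩ := hcase
      have e1 : (max 0 (min (i + 1) ((n : ℤ) - 1))).toNat = i.toNat + 1 := by omega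
      have e2 : (max 0 (min i ((n : ℤ) - 1))).toNat = i.toNat := by omega
      rw [e1, e2] at h
      have hlt : i.toNat + 1 < p.toWord.length := by omega
      rw [List.getD_eq_getElem _ _ hlt, List.getD_eq_getElem _ _ (by omega)] at h
      have hred : IsReduced p.toWord := isReduced_toWord
      have h3 := (List.isChain_iff_getElem.mp hred) i.toNat hlt
      have h4 := h3 (by rw [h]; rfl)
      rw [h] at h4
      simp [inv] at h4
    · have e : (max 0 (min (i + 1) ((n : ℤ) - 1))).toNat = (max 0 (min i ((n : ℤ) - 1))).toNat := by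
        omega
      rw [e] at h
      exact inv_ne _ h.symm

/-- `q` is obtained from `p` by changes of size at most `d` at the two ends. -/
def Rel (d : ℕ) (p q : FreeGroup (Fin 2)) : Prop :=
  ∃ s : ℤ, -(d : ℤ) ≤ s ∧ s ≤ d ∧
    -(d : ℤ) ≤ (q.norm : ℤ) - p.norm - s ∧ (q.norm : ℤ) - p.norm - s ≤ d ∧
    -(d : ℤ) ≤ (q.norm : ℤ) - p.norm - 2 * s ∧ (q.norm : ℤ) - p.norm - 2 * s ≤ d ∧
    ∀ j : ℤ, 2 * d ≤ j → j ≤ (p.norm : ℤ) - 1 - 2 * d → W q (j + s) = W p j

theorem Rel.trans {d1 d2 : ℕ} {p q r : FreeGroup (Fin 2)} (h1 : Rel d1 p q) (h2 : Rel d2 q r) :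
    Rel (d1 + d2) p r := by
  obtain ⟨s, a1, a2, a3, a4, a5, a6, a7⟩ := h1
  obtain ⟨t, b1, b2, b3, b4, b5, b6, b7⟩ := h2
  refine ⟨s + t, by push_cast; omega, by push_cast; omega, by push_cast; omega,
    by push_cast; omega, by push_cast; omega, by push_cast; omega, ?_⟩
  intro j hj1 hj2
  push_cast at hj1 hj2
  have e : j + (s + t) = (j + s) + t := by ring
  rw [e, b7 (j + s) (by omega) (by omega), a7 j (by omega) (by omega)]

theorem Rel.refl (p : FreeGroup (Fin 2)) : Rel 0 p p :=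
  ⟨0, by simp, by simp, by simp, by simp, by simp, by simp, fun j _ _ => by simp⟩

theorem toWord_letter_mul (x : Lt) (p : FreeGroup (Fin 2)) :
    (mk [x] * p).toWord = x :: p.toWord ∨ p.toWord = inv x :: (mk [x] * p).toWord := by
  have h1 : (mk [x] * p).toWord = reduce (x :: p.toWord) := by
    conv_lhs => rw [← mk_toWord (x := p)]
    rw [mul_mk, toWord_mk]
    rfl
  rw [h1, reduce.cons, reduce_toWord]
  rcases hL : p.toWord with _ | ⟨hd, tl⟩
  · left; rfl
  · by_cases hc : x.1 = hd.1 ∧ x.2 = !hd.2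
    · right
      simp only [hc, and_self, if_true]
      congr 1
      obtain ⟨c1, c2⟩ := hc
      ext
      · simp [inv, c1]
      · simp [inv, c2]
    · left
      simp only [hc, if_false]

theorem Rel_letter (x : Lt) (p : FreeGroup (Fin 2)) : Rel 1 p (mk [x] * p) := by
  rcases toWord_letter_mul x p with h | h
  · have hn : (mk [x] * p).norm = p.norm + 1 := by
      show (mk [x] * p).toWord.length = p.toWord.length + 1
      rw [h]; rfl
    refine ⟨1, by omega, by omega, by omega, by omega, by omega, by omega, ?_⟩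
    intro j hj1 hj2
    rw [W_eq _ _ (by omega) (by omega), W_eq _ _ (by omega) (by omega), h]
    have e : (j + 1).toNat = j.toNat + 1 := by omega
    rw [e, List.getD_cons_succ]
  · have hn : p.norm = (mk [x] * p).norm + 1 := by
      show p.toWord.length = (mk [x] * p).toWord.length + 1
      conv_lhs => rw [h]
      rfl
    refine ⟨-1, by omega, by omega, by omega, by omega, by omega, by omega, ?_⟩
    intro j hj1 hj2
    rw [W_eq _ _ (by omega) (by omega), W_eq _ _ (by omega) (by omega)]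
    conv_rhs => rw [h]
    have e : j.toNat = (j + -1).toNat + 1 := by omega
    rw [e, List.getD_cons_succ]

theorem Rel_mk (L : List Lt) (p : FreeGroup (Fin 2)) : Rel L.length p (mk L * p) := by
  induction L with
  | nil =>
    have : (mk [] : FreeGroup (Fin 2)) = 1 := rfl
    rw [this, one_mul]
    exact Rel.refl p
  | cons x L ih =>
    have h : (mk (x :: L) * p : FreeGroup (Fin 2)) = mk [x] * (mk L * p) := by
      rw [← mul_assoc, mul_mk]; rfl
    rw [h]
    exact ih.trans (Rel_letter x _)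

theorem Rel_left (g p : FreeGroup (Fin 2)) : Rel g.norm p (g * p) := by
  have := Rel_mk g.toWord p
  rw [mk_toWord] at this
  exact this

theorem W_inv (p : FreeGroup (Fin 2)) (j : ℤ) (h0 : 0 ≤ j) (h1 : j ≤ (p.norm : ℤ) - 1) :
    W p⁻¹ j = inv (W p ((p.norm : ℤ) - 1 - j)) := by
  rw [W_eq _ _ h0 (by rw [norm_inv_eq]; exact h1), W_eq _ _ (by omega) (by omega)]
  rw [toWord_inv]
  have hn : (p.norm : ℤ) = (p.toWord.length : ℤ) := rfl
  have hlt : j.toNat < (invRev p.toWord).length := by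
    rw [invRev_length]; omega
  rw [List.getD_eq_getElem _ _ hlt, List.getD_eq_getElem _ _ (by omega)]
  simp only [invRev, List.getElem_reverse, List.getElem_map, List.length_map]
  unfold inv
  have e : p.toWord.length - 1 - j.toNat = ((p.norm : ℤ) - 1 - j).toNat := by omega
  simp only [e]

theorem Rel.inv {d : ℕ} {p q : FreeGroup (Fin 2)} (h : Rel d p q) : Rel d p⁻¹ q⁻¹ := by
  obtain ⟨s, a1, a2, a3, a4, a5, a6, a7⟩ := h
  refine ⟨(q.norm : ℤ) - p.norm - s, a3, a4, ?_, ?_, ?_, ?_, ?_⟩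
  · rw [norm_inv_eq, norm_inv_eq]; omega
  · rw [norm_inv_eq, norm_inv_eq]; omega
  · rw [norm_inv_eq, norm_inv_eq]; omega
  · rw [norm_inv_eq, norm_inv_eq]; omega
  · intro j hj1 hj2
    rw [norm_inv_eq] at hj2
    rw [W_inv p j (by omega) (by omega), W_inv q _ (by omega) (by omega)]
    rw [← a7 ((p.norm : ℤ) - 1 - j) (by omega) (by omega)]
    congr 2
    ring

theorem Rel_sym (g p : FreeGroup (Fin 2)) : Rel (g.norm + g.norm) p⁻¹ (g * p⁻¹ * g) := by
  have h1 : Rel g.norm p⁻¹ (g * p⁻¹) := Rel_left g p⁻¹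
  have h2 : Rel g⁻¹.norm (g * p⁻¹)⁻¹ (g⁻¹ * (g * p⁻¹)⁻¹) := Rel_left g⁻¹ _
  have h3 := h2.inv
  rw [norm_inv_eq, _root_.inv_inv] at h3
  have e : (g⁻¹ * (g * p⁻¹)⁻¹)⁻¹ = g * p⁻¹ * g := by group
  rw [e] at h3
  exact h1.trans h3

/-! ### scales -/

/-- Length needed for scale `k`. -/
noncomputable def N0 (k : ℕ) : ℕ := (2 * Lam k + 12 * k + 5).toNat

/-- Thresholds. -/
noncomputable def Lth (k : ℕ) : ℕ := ∑ i ∈ Finset.range (k + 1), (N0 i + 2 * i + 1)

theorem Lth_succ (k : ℕ) : Lth (k + 1) = Lth k + (N0 (k + 1) + 2 * (k + 1) + 1) := by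
  unfold Lth
  rw [Finset.sum_range_succ]

theorem N0_le (k : ℕ) : N0 k ≤ Lth k := by
  unfold Lth
  rw [Finset.sum_range_succ]
  omega

theorem lt_Lth (k : ℕ) : k < Lth k := by
  induction k with
  | zero => simp [Lth]
  | succ k ih => rw [Lth_succ]; omega

theorem Lth_mono {a b : ℕ} (h : a ≤ b) : Lth a ≤ Lth b := by
  induction b, h using Nat.le_induction with
  | base => exact le_rfl
  | succ b _ ih => rw [Lth_succ]; omega

/-- Scale of length `n`. -/
noncomputable def sc (n : ℕ) : ℕ := by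
  classical exact Nat.findGreatest (fun k => Lth k ≤ n) n

theorem sc_spec (n : ℕ) (h : Lth 0 ≤ n) : Lth (sc n) ≤ n := by
  classical
  unfold sc
  exact Nat.findGreatest_spec (P := fun k => Lth k ≤ n) (Nat.zero_le n) h

theorem le_sc (n k : ℕ) (h : Lth k ≤ n) : k ≤ sc n := by
  classical
  unfold sc
  have := lt_Lth k
  exact Nat.le_findGreatest (P := fun k => Lth k ≤ n) (by omega) h

theorem lt_Lth_sc (n : ℕ) : n < Lth (sc n + 1) := by
  by_contra h
  push Not at h
  have := le_sc n (sc n + 1) h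
  omega

theorem sc_close (n n' d : ℕ) (h1 : n' ≤ n + 2 * d) (hd : Lth d ≤ n) (hd' : Lth d ≤ n') :
    sc n' ≤ sc n + 1 := by
  by_contra hcon
  push Not at hcon
  have h2 : Lth (sc n + 1 + 1) ≤ Lth (sc n') := Lth_mono (by omega)
  have h3 : Lth (sc n') ≤ n' := sc_spec n' (le_trans (Lth_mono (Nat.zero_le d)) hd')
  have h4 := lt_Lth_sc n
  have h5 := le_sc n d hd
  rw [Lth_succ] at h2
  omega

/-! ### the colouring -/

theorem exists_col (p : FreeGroup (Fin 2)) :
    ∃ c : Fin 3 × Bool, U (sc p.norm) c.1 (W p) ((p.norm : ℤ) - 1) c.2 := by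
  obtain ⟨i, s, h⟩ := U_cover (sc p.norm) (W p) ((p.norm : ℤ) - 1)
  exact ⟨(i, s), h⟩

/-- The colouring of the free group. -/
noncomputable def col (p : FreeGroup (Fin 2)) : Bool × (Fin 3 × Bool) :=
  (decide (sc p.norm % 2 = 0), (exists_col p).choose)

theorem finite_norm_lt (N : ℕ) : {p : FreeGroup (Fin 2) | p.norm < N}.Finite := by
  have h : {l : List Lt | l.length < N}.Finite := List.finite_length_lt Lt N
  refine Set.Finite.of_finite_image (f := toWord) (h.subset ?_) (toWord_injective.injOn)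
  rintro _ ⟨p, hp, rfl⟩
  exact hp

theorem col_ne (g p : FreeGroup (Fin 2)) (hp : Lth g.norm + 2 * g.norm ≤ p.norm) :
    col p ≠ col (g * p⁻¹ * g) := by
  intro hcol
  set q := g * p⁻¹ * g with hq
  set d := g.norm with hd
  have hR : Rel (d + d) p⁻¹ q := Rel_sym g p
  obtain ⟨s, a1, a2, a3, a4, a5, a6, a7⟩ := hR
  rw [norm_inv_eq] at a3 a4 a5 a6 a7
  push_cast at a1 a2 a3 a4 a5 a6 a7
  have hqn1 : q.norm ≤ p.norm + 2 * d := by
    have h1 : q.norm ≤ (g * p⁻¹).norm + g.norm := norm_mul_le (g * p⁻¹) g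
    have h2 := norm_mul_le g p⁻¹
    rw [norm_inv_eq] at h2
    omega
  have hqn2 : p.norm ≤ q.norm + 2 * d := by
    have e : p = g * q⁻¹ * g := by rw [hq]; group
    have h1 := norm_mul_le (g * q⁻¹) g
    have h2 := norm_mul_le g q⁻¹
    rw [norm_inv_eq] at h2
    rw [← e] at h1
    omega
  have hLp : Lth d ≤ p.norm := by omega
  have hLq : Lth d ≤ q.norm := by omega
  have c1 := sc_close p.norm q.norm d (by omega) hLp hLq
  have c2 := sc_close q.norm p.norm d (by omega) hLq hLp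
  have c3 : decide (sc p.norm % 2 = 0) = decide (sc q.norm % 2 = 0) :=
    congrArg (fun x : Bool × (Fin 3 × Bool) => x.1) hcol
  have c4 : sc p.norm = sc q.norm := by
    rw [decide_eq_decide] at c3
    omega
  have c5 : (exists_col p).choose = (exists_col q).choose :=
    congrArg (fun x : Bool × (Fin 3 × Bool) => x.2) hcol
  have u1 := (exists_col p).choose_spec
  have u2 := (exists_col q).choose_spec
  rw [← c5, ← c4] at u2
  have hk : d ≤ sc p.norm := le_sc _ _ hLp
  have hN : Lth (sc p.norm) ≤ p.norm := sc_spec _ (le_trans (Lth_mono (Nat.zero_le d)) hLp)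
  have hN0 := le_trans (N0_le (sc p.norm)) hN
  set k := sc p.norm with hkdef
  have hN1 : 2 * Lam k + 12 * k + 5 ≤ (p.norm : ℤ) := by
    unfold N0 at hN0
    omega
  refine U_key k (W_red p) ((p.norm : ℤ) - 1 + s) ((p.norm : ℤ) - 1) ((q.norm : ℤ) - 1)
    (by omega) (by omega) ?_ _ _ u1 u2
  intro x hx1 hx2
  have h1 := a7 (x - s) (by omega) (by omega)
  have e : x - s + s = x := by ring
  rw [e] at h1
  rw [h1, W_inv p (x - s) (by omega) (by omega)]
  congr 2
  ring

theorem main : ∃ k : ℕ, ∃ c : FreeGroup (Fin 2) → Fin k,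
      ∀ A : Set (FreeGroup (Fin 2)), A.Infinite →
        (∃ g : FreeGroup (Fin 2), A = (fun a => g * a⁻¹ * g) '' A) →
          ¬ ∃ i : Fin k, ∀ a ∈ A, c a = i := by
  refine ⟨Fintype.card (Bool × (Fin 3 × Bool)), fun p => Fintype.equivFin _ (col p), ?_⟩
  rintro A hA ⟨g, hg⟩ ⟨i, hi⟩
  obtain ⟨p, hpA, hp⟩ : ∃ p ∈ A, Lth g.norm + 2 * g.norm ≤ p.norm := by
    by_contra hcon
    push Not at hcon
    exact hA ((finite_norm_lt (Lth g.norm + 2 * g.norm)).subset (fun p hp => hcon p hp))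
  have hq : g * p⁻¹ * g ∈ A := by
    rw [hg]
    exact ⟨p, hpA, rfl⟩
  have h1 := hi p hpA
  have h2 := hi _ hq
  have h3 := (Fintype.equivFin (Bool × (Fin 3 × Bool))).injective (h1.trans h2.symm)
  exact col_ne g p hp h3

end Pool.Agent.H109R2.SC
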