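import Mathlib

set_option autoImplicit false

namespace Pool.Agent.H109R2.SC

/-! ### codes and signs -/

/-- An injective code of a countable type by natural numbers. -/
noncomputable def code {X : Type} [Countable X] : X → ℕ := (exists_injective_nat X).choose

theorem code_inj {X : Type} [Countable X] : Function.Injective (code (X := X)) :=
  (exists_injective_nat X).choose_spec

/-- The sign of `x` with respect to an involution. -/
noncomputable def sgn {X : Type} [Countable X] (ι : X → X) (x : X) : Bool :=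
  decide (code x < code (ι x))

theorem sgn_flip {X : Type} [Countable X] (ι : X → X) (x : X) (h2 : ι (ι x) = x)
    (hne : x ≠ ι x) : sgn ι (ι x) = !sgn ι x := by
  unfold sgn
  rw [h2]
  have h : code x ≠ code (ι x) := fun h => hne (code_inj h)
  rcases lt_or_gt_of_ne h with h1 | h1
  · simp [h1, not_lt.mpr h1.le]
  · simp [h1, not_lt.mpr h1.le]

/-! ### letters, bi-infinite words -/

/-- Letters of the free group on two generators. -/
abbrev Lt := Fin 2 × Bool

/-- The inverse letter. -/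
def inv (x : Lt) : Lt := (x.1, !x.2)

theorem inv_inv (x : Lt) : inv (inv x) = x := by simp [inv]

theorem inv_ne (x : Lt) : inv x ≠ x := by
  intro h
  have := congrArg Prod.snd h
  simp [inv] at this

/-- Reduced bi-infinite words. -/
def Red (w : ℤ → Lt) : Prop := ∀ i, w (i + 1) ≠ inv (w i)

/-- The word read backwards with inverted letters, reflected at `τ / 2`. -/
def rev (τ : ℤ) (w : ℤ → Lt) : ℤ → Lt := fun j => inv (w (τ - j))

theorem rev_rev (τ : ℤ) (w : ℤ → Lt) : rev τ (rev τ w) = w := by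
  funext j
  simp [rev, inv_inv]

theorem Red.rev {w : ℤ → Lt} (hw : Red w) (τ : ℤ) : Red (rev τ w) := by
  intro i h
  have h1 := hw (τ - (i + 1))
  apply h1
  have h2 : inv (w (τ - (i + 1))) = inv (inv (w (τ - i))) := h
  rw [inv_inv] at h2
  rw [h2]
  congr 1
  ring

theorem anti_false {w : ℤ → Lt} (hw : Red w) (s : ℤ) (h : w (s / 2) = inv (w (s - s / 2))) :
    False := by
  rcases Int.even_or_odd' s with ⟨c, hc | hc⟩
  · have h1 : s / 2 = c := by omega
    have h2 : s - s / 2 = c := by omega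
    rw [h2, h1] at h
    exact inv_ne _ h.symm
  · have h1 : s / 2 = c := by omega
    have h2 : s - s / 2 = c + 1 := by omega
    rw [h2, h1] at h
    apply hw c
    rw [h, inv_inv]

/-! ### finite segments -/

/-- The segment of length `n` starting at `a`. -/
def seg (n : ℕ) (w : ℤ → Lt) (a : ℤ) : Fin n → Lt := fun i => w (a + (i : ℕ))

/-- Inverse word. -/
def iota {n : ℕ} (x : Fin n → Lt) : Fin n → Lt := fun i => inv (x (Fin.rev i))

theorem iota_iota {n : ℕ} (x : Fin n → Lt) : iota (iota x) = x := by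
  funext i
  simp [iota, inv_inv]

theorem seg_rev (n : ℕ) (τ : ℤ) (w : ℤ → Lt) (a : ℤ) :
    seg n (rev τ w) a = iota (seg n w (τ - a - n + 1)) := by
  funext i
  have hi := i.2
  show inv (w (τ - (a + (i : ℕ)))) = inv (w (τ - a - n + 1 + ((Fin.rev i : Fin n) : ℕ)))
  congr 2
  rw [Fin.val_rev]
  omega

theorem seg_ne_iota {w : ℤ → Lt} (hw : Red w) (n : ℕ) (a a' : ℤ) (h1 : a + 1 ≤ a' + n)
    (h2 : a' + 1 ≤ a + n) : seg n w a ≠ iota (seg n w a') := by
  intro h
  set s : ℤ := a + a' + n - 1 with hs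
  have hlt : (s / 2 - a).toNat < n := by omega
  have h3 := congrFun h ⟨(s / 2 - a).toNat, hlt⟩
  apply anti_false hw s
  have h4 : w (a + (((s / 2 - a).toNat : ℕ) : ℤ)) =
      inv (w (a' + ((n - ((s / 2 - a).toNat + 1) : ℕ) : ℤ))) := by
    have := h3
    simp only [seg, iota, Fin.val_rev] at this
    exact this
  have e1 : a + (((s / 2 - a).toNat : ℕ) : ℤ) = s / 2 := by omega
  have e2 : a' + ((n - ((s / 2 - a).toNat + 1) : ℕ) : ℤ) = s - s / 2 := by omega
  rw [e1, e2] at h4
  exact h4

/-- Bound for the codes of words of length `n`. -/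
noncomputable def bnd (n : ℕ) : ℕ := Finset.univ.sup (fun x : Fin n → Lt => code x)

theorem code_le_bnd {n : ℕ} (x : Fin n → Lt) : code x ≤ bnd n :=
  Finset.le_sup (f := fun x : Fin n → Lt => code x) (Finset.mem_univ x)

section

variable (k : ℕ)

/-- Window of radius `6k+2` around `z`. -/
def win (w : ℤ → Lt) (z : ℤ) : Fin (12 * k + 5) → Lt := seg (12 * k + 5) w (z - (6 * k + 2))

/-- Value of position `z`. -/
noncomputable def v (w : ℤ → Lt) (z : ℤ) : ℕ := max (code (win k w z)) (code (iota (win k w z)))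

/-- The window around `z` has a period at most `3k+1`. -/
def per (w : ℤ → Lt) (z : ℤ) : Prop :=
  ∃ q : ℤ, 1 ≤ q ∧ q ≤ 3 * k + 1 ∧
    ∀ i, z - (6 * k + 2) ≤ i → i + q ≤ z + (6 * k + 2) → w i = w (i + q)

/-- Radius. -/
noncomputable def Rad : ℤ := (6 * k + 3) * (bnd (12 * k + 5)) + (3 * k + 1)

/-- Markers. -/
def M (w : ℤ → Lt) (z : ℤ) : Prop :=
  ¬ per k w z ∧ ∀ z', z' ≠ z → z - Rad k ≤ z' → z' ≤ z + Rad k → ¬ per k w z' →
    ((3 * k + 2) * (v k w z : ℤ) + (3 * k + 1) < (z' - z) + (3 * k + 2) * (v k w z' : ℤ) ∨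
      (3 * k + 2) * (v k w z : ℤ) + (3 * k + 1) < (z - z') + (3 * k + 2) * (v k w z' : ℤ))

theorem Rad_ge : (3 * k + 1 : ℤ) ≤ Rad k := by
  unfold Rad
  have : (0 : ℤ) ≤ (6 * k + 3) * (bnd (12 * k + 5)) := by positivity
  linarith

theorem win_rev (τ : ℤ) (w : ℤ → Lt) (z : ℤ) : win k (rev τ w) (τ - z) = iota (win k w z) := by
  unfold win
  rw [seg_rev]
  congr 2
  push_cast
  ring

theorem v_rev (τ : ℤ) (w : ℤ → Lt) (z : ℤ) : v k (rev τ w) (τ - z) = v k w z := by
  unfold v
  rw [win_rev, iota_iota, max_comm]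

theorem per_rev_aux (τ : ℤ) (w : ℤ → Lt) (z : ℤ) (h : per k w z) : per k (rev τ w) (τ - z) := by
  obtain ⟨q, h1, h2, h3⟩ := h
  refine ⟨q, h1, h2, fun i hi1 hi2 => ?_⟩
  have h4 := h3 (τ - (i + q)) (by omega) (by omega)
  show inv (w (τ - i)) = inv (w (τ - (i + q)))
  rw [h4]
  congr 2
  ring

theorem per_rev (τ : ℤ) (w : ℤ → Lt) (z : ℤ) : per k (rev τ w) (τ - z) ↔ per k w z := by
  constructor
  · intro h
    have := per_rev_aux k τ _ _ h
    rw [rev_rev] at this
    simpa using this
  · exact per_rev_aux k τ w z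

theorem M_rev_aux (τ : ℤ) (w : ℤ → Lt) (z : ℤ) (h : M k w z) : M k (rev τ w) (τ - z) := by
  obtain ⟨h1, h2⟩ := h
  refine ⟨fun h => h1 ((per_rev k τ w z).mp h), fun z' hne hz1 hz2 hp => ?_⟩
  have e : z' = τ - (τ - z') := by ring
  rw [e] at hp
  rw [per_rev] at hp
  have h3 := h2 (τ - z') (by omega) (by omega) (by omega) hp
  have h4 : v k (rev τ w) z' = v k w (τ - z') := by
    conv_lhs => rw [e]
    rw [v_rev]
  rw [v_rev, h4]
  omega

theorem M_rev (τ : ℤ) (w : ℤ → Lt) (z : ℤ) : M k (rev τ w) (τ - z) ↔ M k w z := by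
  constructor
  · intro h
    have := M_rev_aux k τ _ _ h
    rw [rev_rev] at this
    simpa using this
  · exact M_rev_aux k τ w z

theorem v_ne {w : ℤ → Lt} (hw : Red w) (z z' : ℤ) (hp : ¬ per k w z) (hne : z ≠ z')
    (h1 : z' - z ≤ 3 * k + 1) (h2 : z - z' ≤ 3 * k + 1) : v k w z ≠ v k w z' := by
  have hA : win k w z ≠ win k w z' := by
    intro h
    apply hp
    have h3 : ∀ i : ℤ, 0 ≤ i → i ≤ 12 * k + 4 →
        w (z - (6 * k + 2) + i) = w (z' - (6 * k + 2) + i) := by
      intro i hi1 hi2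
      have := congrFun h ⟨i.toNat, by omega⟩
      simp only [win, seg] at this
      have e : ((i.toNat : ℕ) : ℤ) = i := by omega
      rw [e] at this
      exact this
    rcases lt_or_gt_of_ne hne with hlt | hlt
    · refine ⟨z' - z, by omega, h1, fun i hi1 hi2 => ?_⟩
      have := h3 (i - (z - (6 * k + 2))) (by omega) (by omega)
      have e1 : z - (6 * k + 2) + (i - (z - (6 * k + 2))) = i := by ring
      have e2 : z' - (6 * k + 2) + (i - (z - (6 * k + 2))) = i + (z' - z) := by ring
      rw [e1, e2] at this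
      exact this
    · refine ⟨z - z', by omega, h2, fun i hi1 hi2 => ?_⟩
      have := h3 (i + (z - z') - (z - (6 * k + 2))) (by omega) (by omega)
      have e1 : z - (6 * k + 2) + (i + (z - z') - (z - (6 * k + 2))) = i + (z - z') := by ring
      have e2 : z' - (6 * k + 2) + (i + (z - z') - (z - (6 * k + 2))) = i := by ring
      rw [e1, e2] at this
      exact this.symm
  have hB : win k w z ≠ iota (win k w z') := by
    apply seg_ne_iota hw <;> push_cast <;> omega
  have hC : win k w z' ≠ iota (win k w z) := by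
    apply seg_ne_iota hw <;> push_cast <;> omega
  intro h
  unfold v at h
  rcases max_choice (code (win k w z)) (code (iota (win k w z))) with e1 | e1 <;>
    rcases max_choice (code (win k w z')) (code (iota (win k w z'))) with e2 | e2 <;>
    rw [e1, e2] at h
  · exact hA (code_inj h)
  · exact hB (code_inj h)
  · exact hC (code_inj h).symm
  · have h5 := congrArg iota (code_inj h)
    rw [iota_iota, iota_iota] at h5
    exact hA h5

theorem dom_aux {w : ℤ → Lt} (hw : Red w) : ∀ m : ℕ, ∀ z, ¬ per k w z → v k w z ≤ m →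
    ∃ z', M k w z' ∧ z - (6 * k + 3) * (v k w z : ℤ) ≤ z' ∧ z' ≤ z + (6 * k + 3) * (v k w z : ℤ) := by
  intro m
  induction m with
  | zero =>
    intro z hp hv
    by_cases hM : M k w z
    · exact ⟨z, hM, by nlinarith [Int.natCast_nonneg (v k w z), Int.natCast_nonneg k],
        by nlinarith [Int.natCast_nonneg (v k w z), Int.natCast_nonneg k]⟩
    · exfalso
      unfold M at hM
      push Not at hM
      obtain ⟨z', hne, hz1, hz2, hp', h3, h4⟩ := hM hp
      have hv0 : v k w z = 0 := by omega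
      rw [hv0] at h3 h4
      have hnn : (0 : ℤ) ≤ (3 * k + 2) * (v k w z' : ℤ) := by positivity
      have hv' : v k w z' = 0 := by
        by_contra hcon
        have h5 : (1 : ℤ) ≤ (v k w z' : ℤ) := by
          have : 1 ≤ v k w z' := Nat.one_le_iff_ne_zero.mpr hcon
          exact_mod_cast this
        have h6 : (3 * k + 2 : ℤ) * 1 ≤ (3 * k + 2) * (v k w z' : ℤ) :=
          mul_le_mul_of_nonneg_left h5 (by positivity)
        push_cast at h3 h4
        omega
      apply v_ne k hw z z' hp (Ne.symm hne) _ _ (by rw [hv0, hv'])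
      · push_cast at h3 h4; omega
      · push_cast at h3 h4; omega
  | succ m ih =>
    intro z hp hv
    by_cases hM : M k w z
    · exact ⟨z, hM, by nlinarith [Int.natCast_nonneg (v k w z), Int.natCast_nonneg k],
        by nlinarith [Int.natCast_nonneg (v k w z), Int.natCast_nonneg k]⟩
    · unfold M at hM
      push Not at hM
      obtain ⟨z', hne, hz1, hz2, hp', h3, h4⟩ := hM hp
      have hlt : v k w z' < v k w z := by
        by_contra hcon
        push Not at hcon
        rcases Nat.lt_or_ge (v k w z) (v k w z') with h5 | h5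
        · have h6 : ((v k w z : ℤ) + 1) ≤ (v k w z' : ℤ) := by exact_mod_cast h5
          have h7 : (3 * k + 2 : ℤ) * ((v k w z : ℤ) + 1) ≤ (3 * k + 2) * (v k w z' : ℤ) :=
            mul_le_mul_of_nonneg_left h6 (by positivity)
          rw [mul_add] at h7
          omega
        · have h6 : v k w z = v k w z' := le_antisymm hcon h5
          apply v_ne k hw z z' hp (Ne.symm hne) _ _ h6
          · rw [h6] at h3; omega
          · rw [h6] at h4; omega
      obtain ⟨z'', hM'', h5, h6⟩ := ih z' hp' (by omega)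
      refine ⟨z'', hM'', ?_, ?_⟩
      · have h7 : ((v k w z' : ℤ) + 1) ≤ (v k w z : ℤ) := by exact_mod_cast hlt
        have h8 : (3 * k + 1 : ℤ) * ((v k w z' : ℤ) + 1) ≤ (3 * k + 1) * (v k w z : ℤ) :=
          mul_le_mul_of_nonneg_left h7 (by positivity)
        have e1 : (6 * k + 3 : ℤ) * (v k w z : ℤ) =
            (3 * k + 2) * (v k w z : ℤ) + (3 * k + 1) * (v k w z : ℤ) := by ring
        have e2 : (6 * k + 3 : ℤ) * (v k w z' : ℤ) =
            (3 * k + 2) * (v k w z' : ℤ) + (3 * k + 1) * (v k w z' : ℤ) := by ring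
        rw [mul_add] at h8
        rw [e1]
        rw [e2] at h5
        linarith
      · have h7 : ((v k w z' : ℤ) + 1) ≤ (v k w z : ℤ) := by exact_mod_cast hlt
        have h8 : (3 * k + 1 : ℤ) * ((v k w z' : ℤ) + 1) ≤ (3 * k + 1) * (v k w z : ℤ) :=
          mul_le_mul_of_nonneg_left h7 (by positivity)
        have e1 : (6 * k + 3 : ℤ) * (v k w z : ℤ) =
            (3 * k + 2) * (v k w z : ℤ) + (3 * k + 1) * (v k w z : ℤ) := by ring
        have e2 : (6 * k + 3 : ℤ) * (v k w z' : ℤ) =
            (3 * k + 2) * (v k w z' : ℤ) + (3 * k + 1) * (v k w z' : ℤ) := by ring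
        rw [mul_add] at h8
        rw [e1]
        rw [e2] at h6
        linarith

theorem per_of_far {w : ℤ → Lt} (hw : Red w) (y : ℤ)
    (h : ∀ z, y - Rad k ≤ z → z ≤ y + Rad k → ¬ M k w z) : per k w y := by
  by_contra hp
  obtain ⟨z, hM, h1, h2⟩ := dom_aux k hw (v k w y) y hp le_rfl
  have h3 : v k w y ≤ bnd (12 * k + 5) := by
    unfold v
    exact max_le (code_le_bnd _) (code_le_bnd _)
  have h4 : (6 * k + 3 : ℤ) * (v k w y : ℤ) ≤ (6 * k + 3) * (bnd (12 * k + 5) : ℤ) :=
    mul_le_mul_of_nonneg_left (by exact_mod_cast h3) (by positivity)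
  have h5 : (6 * k + 3 : ℤ) * (v k w y : ℤ) ≤ Rad k := by
    unfold Rad
    linarith [Int.natCast_nonneg k]
  exact h z (by linarith) (by linarith) hM

theorem M_sep {w : ℤ → Lt} (z z' : ℤ) (hz : M k w z) (hz' : M k w z') (hlt : z < z') :
    3 * k + 1 < z' - z := by
  have hR := Rad_ge k
  by_cases hfar : z' ≤ z + Rad k
  · have a1 := hz.2 z' (by omega) (by omega) hfar hz'.1
    have a2 := hz'.2 z (by omega) (by omega) (by omega) hz.1
    rcases le_total (v k w z) (v k w z') with hv | hv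
    · have h1 : (3 * k + 2 : ℤ) * (v k w z : ℤ) ≤ (3 * k + 2) * (v k w z' : ℤ) :=
        mul_le_mul_of_nonneg_left (by exact_mod_cast hv) (by positivity)
      omega
    · have h1 : (3 * k + 2 : ℤ) * (v k w z' : ℤ) ≤ (3 * k + 2) * (v k w z : ℤ) :=
        mul_le_mul_of_nonneg_left (by exact_mod_cast hv) (by positivity)
      omega
  · omega

/-! ### the periodic stretches -/

/-- The set of words of length `6k+3` seen near `y`. -/
def Aset (w : ℤ → Lt) (y : ℤ) : Set (Fin (6 * k + 3) → Lt) :=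
  {x | ∃ j, y - (3 * k + 1) ≤ j ∧ j ≤ y + (3 * k + 1) ∧ x = seg (6 * k + 3) w (j - (3 * k + 1))}

theorem Aset_rev_aux (τ : ℤ) (w : ℤ → Lt) (y : ℤ) :
    iota '' Aset k w y ⊆ Aset k (rev τ w) (τ - y) := by
  rintro _ ⟨x, ⟨j, h1, h2, rfl⟩, rfl⟩
  refine ⟨τ - j, by omega, by omega, ?_⟩
  rw [seg_rev]
  congr 2
  push_cast
  ring

theorem iota_image_image {n : ℕ} (A : Set (Fin n → Lt)) : iota '' (iota '' A) = A := by
  rw [Set.image_image]
  simp [iota_iota]

theorem Aset_rev (τ : ℤ) (w : ℤ → Lt) (y : ℤ) :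
    Aset k (rev τ w) (τ - y) = iota '' Aset k w y := by
  apply Set.Subset.antisymm _ (Aset_rev_aux k τ w y)
  have h := Aset_rev_aux k τ (rev τ w) (τ - y)
  rw [rev_rev] at h
  have h2 := Set.image_mono (f := iota) h
  rw [iota_image_image] at h2
  simpa using h2

theorem Aset_ne {w : ℤ → Lt} (hw : Red w) (y : ℤ) : Aset k w y ≠ iota '' Aset k w y := by
  intro h
  have h1 : seg (6 * k + 3) w (y - (3 * k + 1)) ∈ Aset k w y :=
    ⟨y, by omega, by omega, rfl⟩
  rw [h] at h1
  obtain ⟨x, ⟨j, h2, h3, rfl⟩, h4⟩ := h1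
  exact seg_ne_iota hw (6 * k + 3) (y - (3 * k + 1)) (j - (3 * k + 1)) (by push_cast; omega)
    (by push_cast; omega) h4.symm

theorem Aset_step {w : ℤ → Lt} (y : ℤ) (h0 : per k w y) (h1 : per k w (y + 1)) :
    Aset k w y = Aset k w (y + 1) := by
  obtain ⟨q, hq1, hq2, hq⟩ := h0
  obtain ⟨p, hp1, hp2, hp⟩ := h1
  ext x
  constructor
  · rintro ⟨j, hj1, hj2, rfl⟩
    by_cases hj : y + 1 - (3 * k + 1) ≤ j
    · exact ⟨j, hj, by omega, rfl⟩
    · refine ⟨j + q, by omega, by omega, ?_⟩
      funext i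
      have hi := i.2
      show w (j - (3 * k + 1) + (i : ℕ)) = w (j + q - (3 * k + 1) + (i : ℕ))
      rw [hq (j - (3 * k + 1) + (i : ℕ)) (by omega) (by omega)]
      congr 1
      ring
  · rintro ⟨j, hj1, hj2, rfl⟩
    by_cases hj : j ≤ y + (3 * k + 1)
    · exact ⟨j, by omega, hj, rfl⟩
    · refine ⟨j - p, by omega, by omega, ?_⟩
      funext i
      have hi := i.2
      show w (j - (3 * k + 1) + (i : ℕ)) = w (j - p - (3 * k + 1) + (i : ℕ))
      rw [hp (j - p - (3 * k + 1) + (i : ℕ)) (by omega) (by omega)]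
      congr 1
      ring

theorem Aset_chain {w : ℤ → Lt} (y : ℤ) : ∀ n : ℕ, (∀ x, y ≤ x → x ≤ y + n → per k w x) →
    Aset k w y = Aset k w (y + n) := by
  intro n
  induction n with
  | zero => intro _; simp
  | succ n ih =>
    intro h
    rw [ih (fun x h1 h2 => h x h1 (by push_cast; omega))]
    rw [Aset_step k (y + n) (h _ (by omega) (by push_cast; omega))
      (h _ (by omega) (by push_cast; omega))]
    congr 1
    push_cast
    ring

end

end Pool.Agent.H109R2.SC
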